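import Pool.Agent.W434.NUM.Stm

/-! Project NUM: subtask NUM-FIX. -/

set_option autoImplicit false

namespace Pool.Agent.W270.NUM

open Pool.Agent.W434.NUM

/-- common neighbour of a finite family -/
theorem hn (hh : S_hel) {W : Type} (m : W → W → W → W)
    (hm : ∀ x y, m x x y = x ∧ m x y x = x ∧ m y x x = x)
    (Q : W → W → Prop) (hr : ∀ x, Q x x)
    (hc : ∀ x x' y y' z z', Q x x' → Q y y' → Q z z' → Q (m x y z) (m x' y' z'))
    (hW : Nonempty W) (k : ℕ) (w : Fin k → W)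
    (h : ∀ i j, ∃ y, Q (w i) y ∧ Q (w j) y) : ∃ z, ∀ i, Q (w i) z := by
  obtain ⟨z, hz⟩ := hh W m k (fun i => {y | Q (w i) y}) hW (by
      intro i y hy y' hy' z
      simp only [Set.mem_setOf_eq] at hy hy' ⊢
      refine ⟨?_, ?_, ?_⟩
      · have := hc _ _ _ _ _ _ hy hy' (hr z)
        rwa [(hm (w i) z).1] at this
      · have := hc _ _ _ _ _ _ hy (hr z) hy'
        rwa [(hm (w i) z).2.1] at this
      · have := hc _ _ _ _ _ _ (hr z) hy hy'
        rwa [(hm (w i) z).2.2] at this) (by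
      intro i j
      obtain ⟨y, h1, h2⟩ := h i j
      exact ⟨y, h1, h2⟩)
  exact ⟨z, hz⟩

section

variable {W : Type} {τ : W → W} {L : ℕ}

theorem per (hL : ∀ x, τ^[L] x = x) (i j : ℕ) (x : W) : τ^[i + j * L] x = τ^[i] x := by
  induction j with
  | zero => simp
  | succ j ih =>
    have : i + (j + 1) * L = (i + j * L) + L := by ring
    rw [this, Function.iterate_add_apply, hL, ih]

theorem per' (hL : ∀ x, τ^[L] x = x) (i : ℕ) (x : W) : τ^[i] x = τ^[i % L] x := by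
  have := per hL (i % L) (i / L) x
  rw [← this]
  congr 1
  rw [mul_comm]
  rw [Nat.mod_add_div]

theorem itpres {Q : W → W → Prop} (ht : ∀ x y, Q x y → Q (τ x) (τ y)) (j : ℕ) :
    ∀ x y, Q x y → Q (τ^[j] x) (τ^[j] y) := by
  induction j with
  | zero => intro x y h; exact h
  | succ j ih =>
    intro x y h
    rw [Function.iterate_succ_apply, Function.iterate_succ_apply]
    exact ih _ _ (ht _ _ h)

theorem pp (h1 : 1 ≤ L) (hL : ∀ x, τ^[L] x = x) {Q : W → W → Prop}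
    (ht : ∀ x y, Q x y → Q (τ x) (τ y)) {x y : W} (h : ∀ i < L, Q (τ^[i] x) y) :
    ∀ i j, Q (τ^[i] x) (τ^[j] y) := by
  have h' : ∀ i, Q (τ^[i] x) y := by
    intro i
    rw [per' hL]
    exact h _ (Nat.mod_lt _ h1)
  intro i j
  have := itpres ht j _ _ (h' (i + j * (L - 1)))
  rw [← Function.iterate_add_apply] at this
  have e : j + (i + j * (L - 1)) = i + j * L := by
    obtain ⟨l, rfl⟩ : ∃ l, L = l + 1 := ⟨L - 1, by omega⟩
    simp only [Nat.add_sub_cancel]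
    ring
  rw [e, per hL] at this
  exact this

end

/-- good relations -/
structure Gd {W : Type} (m : W → W → W → W) (τ : W → W) (Q : W → W → Prop) : Prop where
  rf : ∀ x, Q x x
  sy : ∀ x y, Q x y → Q y x
  co : ∀ x x' y y' z z', Q x x' → Q y y' → Q z z' → Q (m x y z) (m x' y' z')
  ta : ∀ x y, Q x y → Q (τ x) (τ y)

/-- composition with itself -/
def Sq {W : Type} (Q : W → W → Prop) (x y : W) : Prop := ∃ z, Q x z ∧ Q z y

/-- iterated squares -/
def It {W : Type} (Q : W → W → Prop) : ℕ → W → W → Prop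
  | 0 => Q
  | k + 1 => Sq (It Q k)

theorem gsq {W : Type} {m : W → W → W → W} {τ : W → W} {Q : W → W → Prop} (h : Gd m τ Q) :
    Gd m τ (Sq Q) where
  rf := fun x => ⟨x, h.rf x, h.rf x⟩
  sy := fun x y ⟨z, h1, h2⟩ => ⟨z, h.sy _ _ h2, h.sy _ _ h1⟩
  co := fun x x' y y' z z' ⟨a, a1, a2⟩ ⟨b, b1, b2⟩ ⟨c, c1, c2⟩ =>
    ⟨m a b c, h.co _ _ _ _ _ _ a1 b1 c1, h.co _ _ _ _ _ _ a2 b2 c2⟩
  ta := fun x y ⟨z, h1, h2⟩ => ⟨τ z, h.ta _ _ h1, h.ta _ _ h2⟩

theorem git {W : Type} {m : W → W → W → W} {τ : W → W} {Q : W → W → Prop} (h : Gd m τ Q) (k : ℕ) :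
    Gd m τ (It Q k) := by
  induction k with
  | zero => exact h
  | succ k ih => exact gsq ih

theorem itmono {W : Type} {m : W → W → W → W} {τ : W → W} {Q : W → W → Prop} (h : Gd m τ Q)
    {k l : ℕ} (hkl : k ≤ l) {x y : W} (hx : It Q k x y) : It Q l x y := by
  induction l, hkl using Nat.le_induction with
  | base => exact hx
  | succ l _ ih => exact ⟨y, ih, (git h l).rf y⟩

/-- the halving step -/
theorem half (hh : S_hel) {W : Type} (m : W → W → W → W) (τ : W → W) (L : ℕ) (h1 : 1 ≤ L)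
    (hm : ∀ x y, m x x y = x ∧ m x y x = x ∧ m y x x = x)
    (hτ : ∀ x y z, τ (m x y z) = m (τ x) (τ y) (τ z))
    (hL : ∀ x, τ^[L] x = x) {Q : W → W → Prop} (hQ : Gd m τ Q)
    (hx : ∃ x, ∀ i j, Sq Q (τ^[i] x) (τ^[j] x)) : ∃ x, ∀ i j, Q (τ^[i] x) (τ^[j] x) := by
  obtain ⟨x, hx⟩ := hx
  obtain ⟨y, hy⟩ := hn hh m hm Q hQ.rf hQ.co ⟨x⟩ L (fun i => τ^[i.val] x) (by
    intro i j
    obtain ⟨z, hz1, hz2⟩ := hx i.val j.val
    exact ⟨z, hz1, hQ.sy _ _ hz2⟩)
  have hxy : ∀ i j, Q (τ^[i] x) (τ^[j] y) := pp h1 hL hQ.ta (fun i hi => hy ⟨i, hi⟩)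
  obtain ⟨z, hz⟩ := hn hh m hm Q hQ.rf hQ.co ⟨x⟩ (L + L)
    (fun i => if i.val < L then τ^[i.val] x else τ^[i.val] y) (by
      intro i j
      split_ifs with hi hj hj
      · exact ⟨y, hxy i.val 0, hxy j.val 0⟩
      · exact ⟨τ^[i.val] x, hQ.rf _, hQ.sy _ _ (hxy _ _)⟩
      · exact ⟨τ^[j.val] x, hQ.sy _ _ (hxy _ _), hQ.rf _⟩
      · exact ⟨x, hQ.sy _ _ (hxy 0 _), hQ.sy _ _ (hxy 0 _)⟩)
  have hxz : ∀ i j, Q (τ^[i] x) (τ^[j] z) := pp h1 hL hQ.ta (fun i hi => by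
    have := hz ⟨i, by omega⟩
    simpa [hi] using this)
  have hyz : ∀ i j, Q (τ^[i] y) (τ^[j] z) := pp h1 hL hQ.ta (fun i hi => by
    have := hz ⟨i + L, by omega⟩
    have e : ¬ (i + L < L) := by omega
    simp only [e, if_false] at this
    have e2 := per hL i 1 y
    rw [one_mul] at e2
    rwa [e2] at this)
  have hd : ∀ j, τ^[j] (m x y z) = m (τ^[j] x) (τ^[j] y) (τ^[j] z) := by
    intro j
    induction j with
    | zero => rfl
    | succ j ih => rw [Function.iterate_succ_apply', ih, hτ, ← Function.iterate_succ_apply' τ,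
        ← Function.iterate_succ_apply' τ, ← Function.iterate_succ_apply' τ]
  have hxd : ∀ i j, Q (τ^[i] x) (τ^[j] (m x y z)) := by
    intro i j
    rw [hd]
    have := hQ.co _ _ _ _ _ _ (hQ.rf (τ^[j] x)) (hxy i j) (hxz i j)
    rwa [(hm (τ^[i] x) (τ^[j] x)).2.2] at this
  have hyd : ∀ i j, Q (τ^[i] y) (τ^[j] (m x y z)) := by
    intro i j
    rw [hd]
    have := hQ.co _ _ _ _ _ _ (hQ.sy _ _ (hxy j i)) (hQ.rf (τ^[j] y)) (hyz i j)
    rwa [(hm (τ^[i] y) (τ^[j] y)).2.1] at this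
  refine ⟨m x y z, fun i j => ?_⟩
  rw [hd j]
  have := hQ.co _ _ _ _ _ _ (hQ.sy _ _ (hxd j i)) (hQ.sy _ _ (hyd j i)) (hQ.rf (τ^[j] z))
  rwa [(hm (τ^[i] (m x y z)) (τ^[j] z)).1] at this

theorem fix (hh : S_hel) : S_fix := by
  intro W m le τ L h1 hm lr lt lc hτ hle hL x hx
  -- the relation U
  let U : W → W → Prop := fun x y => ∃ z, le x z ∧ le y z
  have hU : Gd m τ U :=
    { rf := fun x => ⟨x, lr x, lr x⟩
      sy := fun x y ⟨z, h1, h2⟩ => ⟨z, h2, h1⟩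
      co := fun x x' y y' z z' ⟨a, a1, a2⟩ ⟨b, b1, b2⟩ ⟨c, c1, c2⟩ =>
        ⟨m a b c, lc _ _ _ _ _ _ a1 b1 c1, lc _ _ _ _ _ _ a2 b2 c2⟩
      ta := fun x y ⟨z, h1, h2⟩ => ⟨τ z, hle _ _ h1, hle _ _ h2⟩ }
  -- (1)
  have s1 : ∀ w, Relation.ReflTransGen (fun a b => le a b ∨ le b a) x w → ∃ k, It U k x w := by
    intro w hw
    induction hw with
    | refl => exact ⟨0, hU.rf _⟩
    | tail _ hbc ih =>
      obtain ⟨k, hk⟩ := ih
      refine ⟨k + 1, _, hk, itmono hU (Nat.zero_le k) ?_⟩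
      rcases hbc with h | h
      · exact ⟨_, h, lr _⟩
      · exact ⟨_, lr _, h⟩
  obtain ⟨k, hk⟩ := s1 _ hx
  have s2 : ∀ i, ∃ k, It U k x (τ^[i] x) := by
    intro i
    induction i with
    | zero => exact ⟨0, hU.rf _⟩
    | succ i ih =>
      obtain ⟨l, hl⟩ := ih
      refine ⟨max k l + 1, τ^[i] x, itmono hU (le_max_right _ _) hl, ?_⟩
      rw [Function.iterate_succ_apply]
      exact itmono hU (le_max_left _ _) (itpres (git hU k).ta i _ _ hk)
  have s3 : ∃ k, ∀ i < L, It U k x (τ^[i] x) := by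
    clear h1 hL
    induction L with
    | zero => exact ⟨0, fun i hi => absurd hi (by omega)⟩
    | succ L ih =>
      obtain ⟨l, hl⟩ := ih
      obtain ⟨l', hl'⟩ := s2 L
      refine ⟨max l l', fun i hi => ?_⟩
      rcases Nat.lt_succ_iff_lt_or_eq.mp hi with h | h
      · exact itmono hU (le_max_left _ _) (hl i h)
      · subst h
        exact itmono hU (le_max_right _ _) hl'
  obtain ⟨k2, hk2⟩ := s3
  have s4 : ∃ k, ∃ x, ∀ i j, It U k (τ^[i] x) (τ^[j] x) := by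
    refine ⟨k2 + 1, x, fun i j => ⟨x, ?_, ?_⟩⟩
    · rw [per' hL i]
      exact (git hU k2).sy _ _ (hk2 _ (Nat.mod_lt _ h1))
    · rw [per' hL j]
      exact hk2 _ (Nat.mod_lt _ h1)
  -- (3)
  have s5 : ∃ x, ∀ i j, U (τ^[i] x) (τ^[j] x) := by
    obtain ⟨k3, hk3⟩ := s4
    induction k3 with
    | zero => exact hk3
    | succ k3 ih => exact ih (half hh m τ L h1 hm hτ hL (git hU k3) hk3)
  obtain ⟨x, hx5⟩ := s5
  -- (4)
  obtain ⟨y, hy⟩ := hn hh m hm le lr lc ⟨x⟩ L (fun i => τ^[i.val] x)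
    (fun i j => hx5 i.val j.val)
  have hxy : ∀ i j, le (τ^[i] x) (τ^[j] y) := pp h1 hL hle (fun i hi => hy ⟨i, hi⟩)
  have hxy0 : ∀ j, le x (τ^[j] y) := fun j => hxy 0 j
  -- (5)
  let M : ℕ → W := fun k => Nat.rec y (fun k M => m M x (τ^[k + 1] y)) k
  have M0 : M 0 = y := rfl
  have Ms : ∀ k, M (k + 1) = m (M k) x (τ^[k + 1] y) := fun k => rfl
  have m1 : ∀ k, le x (M k) := by
    intro k
    induction k with
    | zero => exact hxy0 0
    | succ k ih =>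
      rw [Ms]
      have := lc _ _ _ _ _ _ ih (lr x) (hxy0 (k + 1))
      rwa [(hm x x).1] at this
  have m2 : ∀ k, le (M (k + 1)) (M k) := by
    intro k
    rw [Ms]
    have := lc _ _ _ _ _ _ (lr (M k)) (m1 k) (lr (τ^[k + 1] y))
    rwa [(hm (M k) (τ^[k + 1] y)).1] at this
  have m3 : ∀ k, le (M (k + 1)) (τ^[k + 1] y) := by
    intro k
    rw [Ms]
    have := lc _ _ _ _ _ _ (lr (M k)) (hxy0 (k + 1)) (lr (τ^[k + 1] y))
    rwa [(hm (τ^[k + 1] y) (M k)).2.2] at this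
  have m4 : ∀ a, (∀ j, le a (τ^[j] y)) → ∀ k, le a (M k) := by
    intro a ha k
    induction k with
    | zero => exact ha 0
    | succ k ih =>
      rw [Ms]
      have := lc _ _ _ _ _ _ ih (lr x) (ha (k + 1))
      rwa [(hm a x).2.1] at this
  have m5 : ∀ k j, j ≤ k → le (M k) (τ^[j] y) := by
    intro k
    induction k with
    | zero =>
      intro j hj
      obtain rfl : j = 0 := by omega
      exact lr _
    | succ k ih =>
      intro j hj
      rcases Nat.lt_succ_iff_lt_or_eq.mp (Nat.lt_succ_of_le hj) with h | h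
      · exact lt _ _ _ (m2 k) (ih j (by omega))
      · subst h
        exact m3 k
  have m6 : ∀ j, le (M L) (τ^[j] y) := by
    intro j
    rw [per' hL j]
    exact m5 L _ (Nat.mod_lt _ h1).le
  refine ⟨M L, m4 _ (fun j => ?_) L⟩
  have := hle _ _ (m6 (j + (L - 1)))
  rw [← Function.iterate_succ_apply' τ] at this
  have e : (j + (L - 1)).succ = j + 1 * L := by omega
  rw [e, per hL] at this
  exact this

end Pool.Agent.W270.NUM
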